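import Pool.Agent.helper54.V3.SpecT

/-!
# Project v3 (MP_af9036_an), module TMO: Montel along an ultrafilter
-/

set_option autoImplicit false

open Complex Metric Set Filter Topology MeasureTheory

noncomputable section

namespace V3

/-- bounded sequences have ultralimits -/
theorem TMO_lim (U : Ultrafilter ℕ) (a : ℕ → ℂ) (C : ℝ) (h : ∀ᶠ m in (U : Filter ℕ), ‖a m‖ ≤ C) :
    ∃ z : ℂ, Tendsto a U (𝓝 z) := by
  have hK : IsCompact (closedBall (0 : ℂ) C) := isCompact_closedBall 0 C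
  have h1 : ((U.map a : Ultrafilter ℂ) : Filter ℂ) ≤ 𝓟 (closedBall (0 : ℂ) C) := by
    rw [le_principal_iff]
    change ∀ᶠ m in (U : Filter ℕ), a m ∈ closedBall (0 : ℂ) C
    filter_upwards [h] with m hm
    rwa [mem_closedBall_zero_iff]
  obtain ⟨z, _, hz⟩ := hK.ultrafilter_le_nhds (U.map a) h1
  exact ⟨z, hz⟩

/-- the pointwise limit -/
def TMO_F (U : Ultrafilter ℕ) (f : ℕ → ℂ → ℂ) (x : ℂ) : ℂ := by
  classical
  exact if h : ∃ z : ℂ, Tendsto (fun m => f m x) U (𝓝 z) then h.choose else 0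

theorem TMO_F_spec (U : Ultrafilter ℕ) (f : ℕ → ℂ → ℂ) (x : ℂ) (C : ℝ)
    (h : ∀ᶠ m in (U : Filter ℕ), ‖f m x‖ ≤ C) : Tendsto (fun m => f m x) U (𝓝 (TMO_F U f x)) := by
  unfold TMO_F
  have h1 := TMO_lim U (fun m => f m x) C h
  rw [dif_pos h1]
  exact h1.choose_spec

/-- Lipschitz bound from Cauchy's estimate -/
theorem TMO_lip (g : ℂ → ℂ) (x : ℂ) (r C : ℝ) (hr : 0 < r) (hd : DifferentiableOn ℂ g (ball x r))
    (hb : ∀ y ∈ ball x r, ‖g y‖ ≤ C) : ∀ y ∈ ball x (r / 2), ∀ z ∈ ball x (r / 2),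
      ‖g z - g y‖ ≤ C / (r / 4) * ‖z - y‖ := by
  intro y hy z hz
  have hsub : ball x (r / 2) ⊆ ball x r := ball_subset_ball (by linarith)
  apply Convex.norm_image_sub_le_of_norm_deriv_le (s := ball x (r / 2)) _ _ (convex_ball x _) hy hz
  · intro w hw
    exact (hd w (hsub hw)).differentiableAt (isOpen_ball.mem_nhds (hsub hw))
  · intro w hw
    have hw2 : closedBall w (r / 4) ⊆ ball x r := by
      intro v hv
      rw [mem_closedBall] at hv
      rw [mem_ball] at hw ⊢
      calc dist v x ≤ dist v w + dist w x := dist_triangle _ _ _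
        _ < r := by linarith
    apply Complex.norm_deriv_le_of_forall_mem_sphere_norm_le (by linarith)
    · apply DifferentiableOn.diffContOnCl
      rw [closure_ball w (by linarith : r / 4 ≠ 0)]
      exact hd.mono hw2
    · intro v hv
      exact hb v (hw2 (sphere_subset_closedBall hv))

theorem TMO_unif (U : Ultrafilter ℕ) (f : ℕ → ℂ → ℂ) (x : ℂ) (r C : ℝ) (hr : 0 < r) (hC : 0 ≤ C)
    (h : ∀ᶠ m in (U : Filter ℕ), DifferentiableOn ℂ (f m) (ball x r) ∧ ∀ y ∈ ball x r, ‖f m y‖ ≤ C) :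
    TendstoUniformlyOn f (TMO_F U f) U (ball x (r / 2)) := by
  set L := C / (r / 4) with hL
  have hL0 : 0 ≤ L := by positivity
  have hsub : ball x (r / 2) ⊆ ball x r := ball_subset_ball (by linarith)
  have hlim : ∀ y ∈ ball x r, Tendsto (fun m => f m y) U (𝓝 (TMO_F U f y)) := by
    intro y hy
    apply TMO_F_spec U f y C
    filter_upwards [h] with m hm
    exact hm.2 y hy
  have hlip : ∀ᶠ m in (U : Filter ℕ), ∀ y ∈ ball x (r / 2), ∀ z ∈ ball x (r / 2),
      ‖f m z - f m y‖ ≤ L * ‖z - y‖ := by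
    filter_upwards [h] with m hm
    exact TMO_lip (f m) x r C hr hm.1 hm.2
  have hlipF : ∀ y ∈ ball x (r / 2), ∀ z ∈ ball x (r / 2),
      ‖TMO_F U f z - TMO_F U f y‖ ≤ L * ‖z - y‖ := by
    intro y hy z hz
    have h1 : Tendsto (fun m => ‖f m z - f m y‖) U (𝓝 ‖TMO_F U f z - TMO_F U f y‖) :=
      ((hlim z (hsub hz)).sub (hlim y (hsub hy))).norm
    apply le_of_tendsto h1
    filter_upwards [hlip] with m hm
    exact hm y hy z hz
  rw [Metric.tendstoUniformlyOn_iff]
  intro ε hε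
  have htb : TotallyBounded (ball x (r / 2)) := (isCompact_closedBall x (r / 2)).totallyBounded.subset
    ball_subset_closedBall
  have hδ : 0 < ε / (4 * (L + 1)) := by positivity
  obtain ⟨t, hts, htf, hcov⟩ := Metric.finite_approx_of_totallyBounded htb (ε / (4 * (L + 1))) hδ
  have hpts : ∀ᶠ m in (U : Filter ℕ), ∀ c ∈ t, dist (f m c) (TMO_F U f c) < ε / 4 := by
    rw [Filter.eventually_all_finite htf]
    intro c hc
    exact (Metric.tendsto_nhds.1 (hlim c (hsub (hts hc)))) (ε / 4) (by positivity)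
  filter_upwards [hlip, hpts] with m hm1 hm2
  intro y hy
  have hy2 := hcov hy
  rw [mem_iUnion₂] at hy2
  obtain ⟨c, hc, hyc⟩ := hy2
  have hcb := hts hc
  rw [mem_ball, dist_eq_norm] at hyc
  have e1 := hm1 c hcb y hy
  have e2 := hm2 c hc
  rw [dist_eq_norm] at e2
  have e3 := hlipF c hcb y hy
  have e4 : L * ‖y - c‖ ≤ ε / 4 := by
    have h5 : L * ‖y - c‖ ≤ (L + 1) * (ε / (4 * (L + 1))) :=
      mul_le_mul (by linarith) hyc.le (norm_nonneg _) (by linarith)
    have h6 : (L + 1) * (ε / (4 * (L + 1))) = ε / 4 := by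
      field_simp
    linarith
  rw [dist_eq_norm]
  have e5 : TMO_F U f y - f m y = (TMO_F U f y - TMO_F U f c) - (f m c - TMO_F U f c) - (f m y - f m c) := by
    ring
  rw [e5]
  have e6 := norm_sub_le ((TMO_F U f y - TMO_F U f c) - (f m c - TMO_F U f c)) (f m y - f m c)
  have e7 := norm_sub_le (TMO_F U f y - TMO_F U f c) (f m c - TMO_F U f c)
  linarith

theorem TMO : TMO_stmt := by
  intro U f Ω hΩ hloc
  have hloc2 : ∀ x ∈ Ω, ∃ r > (0 : ℝ), (∀ᶠ m in (U : Filter ℕ), DifferentiableOn ℂ (f m) (ball x (r / 2))) ∧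
      TendstoUniformlyOn f (TMO_F U f) U (ball x (r / 2)) := by
    intro x hx
    obtain ⟨r, hr, C, hC⟩ := hloc x hx
    refine ⟨r, hr, ?_, TMO_unif U f x r (max C 0) hr (le_max_right _ _) ?_⟩
    · filter_upwards [hC] with m hm
      exact hm.1.mono (ball_subset_ball (by linarith))
    · filter_upwards [hC] with m hm
      exact ⟨hm.1, fun y hy => (hm.2 y hy).trans (le_max_left _ _)⟩
  refine ⟨TMO_F U f, ?_, ?_⟩
  · intro x hx
    obtain ⟨r, hr, h1, h2⟩ := hloc2 x hx
    have h3 : DifferentiableOn ℂ (TMO_F U f) (ball x (r / 2)) :=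
      h2.tendstoLocallyUniformlyOn.differentiableOn h1 isOpen_ball
    exact ((h3 x (mem_ball_self (by linarith))).differentiableAt
      (isOpen_ball.mem_nhds (mem_ball_self (by linarith)))).differentiableWithinAt
  · intro u hu x hx
    obtain ⟨r, hr, h1, h2⟩ := hloc2 x hx
    refine ⟨ball x (r / 2), mem_nhdsWithin_of_mem_nhds (ball_mem_nhds x (by linarith)), h2 u hu⟩

end V3
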