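import Pool.Agent.helper54.V3.SpecG
import Pool.Agent.helper16.MP.TP

/-!
# Project v3 (MP_af9036_an), module GPD: the numerator polynomial
-/

set_option autoImplicit false

open Complex Metric Set Filter Topology MeasureTheory MPS V3

noncomputable section

namespace V3S

theorem GPD_order (P : Polynomial ℂ) (hP : P ≠ 0) (a : ℂ) :
    analyticOrderAt (fun z => P.eval z) a = (P.rootMultiplicity a : ℕ) := by
  have han : AnalyticAt ℂ (fun z => P.eval z) a := P.differentiable.analyticAt a
  rw [han.analyticOrderAt_eq_natCast]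
  obtain ⟨q, hq, hnd⟩ := Polynomial.exists_eq_pow_rootMultiplicity_mul_and_not_dvd P hP a
  refine ⟨fun z => q.eval z, q.differentiable.analyticAt a, ?_, ?_⟩
  · intro h0
    exact hnd (Polynomial.dvd_iff_isRoot.2 h0)
  · refine Eventually.of_forall fun z => ?_
    have h1 : P.eval z = ((Polynomial.X - Polynomial.C a) ^ P.rootMultiplicity a * q).eval z := by
      rw [← hq]
    rw [h1, Polynomial.eval_mul, Polynomial.eval_pow, Polynomial.eval_sub, Polynomial.eval_X,
      Polynomial.eval_C, smul_eq_mul]

theorem GPD_iter (f : Polynomial ℂ) (j : ℕ) : Differentiable ℂ ((fun z => f.eval z)^[j]) := by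
  induction j with
  | zero => exact differentiable_id
  | succ j ih =>
    rw [Function.iterate_succ']
    exact f.differentiable.comp ih

theorem GPD_F (D : Dat) (j : ℕ) : Differentiable ℂ (D.F j) := by
  have h1 : Differentiable ℂ D.zz := by
    unfold Dat.zz
    fun_prop
  have h2 : Differentiable ℂ D.xx := by
    unfold Dat.xx
    exact (differentiable_id.sub_const _).div_const _
  exact h2.comp ((GPD_iter D.f j).comp h1)

theorem GPD : GPD_stmt := by
  refine ⟨fun k _ b g hb => ⟨?_, ?_⟩, ?_⟩
  · unfold Ppoly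
    exact Polynomial.natDegree_sum_le_of_forall_le _ _ fun i _ => (TP_coeff b g i).1
  · intro h0
    have h1 := (MPS.TP k b g hb).2.1 0
    rw [h0] at h1
    simp at h1
  · intro n ra Cf D hD j μ z hz hd hord
    have hsg : D.sg ≠ 0 := (hD.mx 0).pn.der
    have hinj : Function.Injective D.b := hD.cyc.inj
    obtain ⟨hTP1, hTP2, _⟩ := MPS.TP D.k D.b D.g hinj
    have hP0 : Ppoly D.b D.g ≠ 0 := by
      intro h0
      have h1 := hTP2 0
      rw [h0] at h1
      simp at h1
    have hF := GPD_F D j
    set φ : ℂ → ℂ := fun x => D.zz (D.F j x) with hφ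
    have hφd : Differentiable ℂ φ := by
      rw [hφ]
      unfold Dat.zz
      exact (hF.const_mul D.sg).const_add _
    have hφ' : deriv φ z ≠ 0 := by
      have h1 : deriv φ z = D.sg * deriv (D.F j) z := by
        have h2 : HasDerivAt φ (D.sg * deriv (D.F j) z) z := by
          rw [hφ]
          unfold Dat.zz
          exact ((hF z).hasDerivAt.const_mul D.sg).const_add _
        exact h2.deriv
      rw [h1]
      exact mul_ne_zero hsg hd
    have hφz : ∀ l, φ z ≠ D.b l := by
      intro l h
      apply hz l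
      unfold Dat.p
      rw [← h, hφ]
      unfold Dat.xx Dat.zz
      field_simp
      ring
    have hcomp : analyticOrderAt ((fun y => (Ppoly D.b D.g).eval y) ∘ φ) z =
        analyticOrderAt (fun y => (Ppoly D.b D.g).eval y) (φ z) :=
      analyticOrderAt_comp_of_deriv_ne_zero (hφd.analyticAt z) hφ'
    rw [GPD_order _ hP0] at hcomp
    have hle : (μ : ℕ∞) ≤ analyticOrderAt ((fun y => (Ppoly D.b D.g).eval y) ∘ φ) z := by
      have han : AnalyticAt ℂ ((fun y => (Ppoly D.b D.g).eval y) ∘ φ) z :=
        ((Ppoly D.b D.g).differentiable.comp hφd).analyticAt z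
      rw [natCast_le_analyticOrderAt han]
      obtain ⟨h, hh, hT⟩ := hord
      have hdF : AnalyticAt ℂ (deriv (D.F j)) z := (hF.analyticAt z).deriv
      refine ⟨fun x => h x * (∏ i, (φ x - D.b i) ^ 2) / (deriv (D.F j) x ^ 2 * D.sg ^ 2), ?_, ?_⟩
      · apply AnalyticAt.div
        · apply hh.mul
          apply Finset.analyticAt_fun_prod
          intro i _
          exact ((hφd.analyticAt z).sub analyticAt_const).pow 2
        · exact (hdF.pow 2).mul analyticAt_const
        · exact mul_ne_zero (pow_ne_zero 2 hd) (pow_ne_zero 2 hsg)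
      · have e1 : ∀ᶠ x in 𝓝 z, deriv (D.F j) x ≠ 0 :=
          hdF.continuousAt.eventually_ne hd
        have e2 : ∀ᶠ x in 𝓝 z, ∀ l, φ x ≠ D.b l := by
          rw [eventually_all]
          intro l
          exact (hφd z).continuousAt.eventually_ne (hφz l)
        filter_upwards [hT, e1, e2] with x hx1 hx2 hx3
        have h3 := hTP1 (φ x) hx3
        have h4 : D.T j x = deriv (D.F j) x ^ 2 * D.sg ^ 2 * BB D.b D.g (φ x) := by
          unfold Dat.T Dat.B
          ring
        rw [h4] at hx1
        have h5 : deriv (D.F j) x ^ 2 * D.sg ^ 2 ≠ 0 :=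
          mul_ne_zero (pow_ne_zero 2 hx2) (pow_ne_zero 2 hsg)
        simp only [Function.comp_apply, smul_eq_mul]
        rw [← h3, ← mul_div_assoc, eq_div_iff h5]
        calc BB D.b D.g (φ x) * (∏ i, (φ x - D.b i) ^ 2) * (deriv (D.F j) x ^ 2 * D.sg ^ 2)
            = (deriv (D.F j) x ^ 2 * D.sg ^ 2 * BB D.b D.g (φ x)) * ∏ i, (φ x - D.b i) ^ 2 := by ring
          _ = (x - z) ^ μ * h x * ∏ i, (φ x - D.b i) ^ 2 := by rw [hx1]
          _ = _ := by ring
    rw [hcomp] at hle
    exact_mod_cast hle

end V3S
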